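import Pool.Agent.Helper18.FM.GoalsC
import Pool.Agent.Helper40.HB.SVP

/-! # FM FVP: positivity of the volume (copy of `Helper40/HB/SVP.lean`) -/

open Complex Metric Set Filter Topology MeasureTheory
open scoped ContDiff ComplexConjugate ComplexOrder Manifold Matrix

namespace Pool.Agent.Helper38.FM.FVP

open Pool.Agent.Helper95.Lin Pool.Agent.Helper16.Abund Pool.Agent.Helper92.Orb
  Pool.Agent.Helper10.SP Pool.Agent.Helper95.RK Pool.Agent.Helper57.HS
  Pool.Agent.Helper15.HS Pool.Agent.Helper15.GS Pool.Agent.Helper57.RBC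
  Pool.Agent.Helper95.HS Pool.Agent.Helper82.HB Pool.Agent.Helper40.RBC Pool.Agent.Helper40.HB
open Pool.Agent.Helper18.FM
open Pool.Agent.Helper10.RBC (dn)

universe u

theorem t (hSRLV : S_SRLV.{u}) (hFAV : S_FAV.{u}) (hFBET : S_FBET.{u}) (hSDL : S_SDL)
    (hRHOI : S_RHOI.{u}) (hNULL0 : S_NULL0.{u}) (hDETI : S_DETI.{u}) :
    Pool.Agent.Helper18.FM.S_FVP.{u} := by
  intro n m hn T G _ R H σ h χ c0 ψ hD κ hκ k p hp0 hV r X P s N φ H' ε Q hL hkr
  have hT : IsOpen T := hD.ket.et.isOpen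
  have hte := hκ.test
  have hc0 : 0 ≤ c0 := hD.c0
  have hpar := hL.par.par
  obtain ⟨α, hα, hnd⟩ := hL.nd
  obtain ⟨-, -, hbet⟩ := hFBET T R hD.ket.et σ h P r hD.sf hpar
  have hPc : ContinuousOn P T := contMm fun a b => (hpar.holo a b).continuousOn
  have hσc : ContinuousOn σ T := contMm fun i a => (hD.sf.holo i a).continuousOn
  have hhc : ContinuousOn h T := contMm fun a b => (hD.sf.smooth a b).continuousOn
  have hHc : ContinuousOn H T := contMm fun i j => (hD.ket.smooth i j).continuousOn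
  set β : Cn n → Matrix (Fin n) (Fin n) ℂ := gS (fun y => σ y * P y) h with hβdef
  have hβc : ContinuousOn β T := contGS hσc hhc hPc
  obtain ⟨F, hFc, hFA, hFle⟩ := exFM hPc hL.XP hnd
  have hav := hFAV T R H σ h χ c0 ψ hD κ hκ r X P s N φ H' ε Q hL F hFc α α
    (fun x hx => ⟨(hFA x hx).ge, (hFA x hx).le⟩) (α / 2) (by linarith)
  -- limits
  have hεL : Tendsto ε atTop (𝓝 0) := hL.lim
  have haL : Tendsto (fun j => 1 + ε j * N j) atTop (𝓝 (1 + c0)) := hL.limN.const_add 1
  have hC1 : (1 : ℝ) + c0 ≠ 0 := by positivity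
  have hC2 : (0 : ℝ) < 2 + c0 := by positivity
  have haL1 : Tendsto (fun j => (1 + ε j * N j) / (1 + c0)) atTop (𝓝 1) := by
    have h0 := haL.div_const (1 + c0)
    rwa [div_self hC1] at h0
  have hsL : Tendsto (fun j => ε j / (1 + ε j * N j)) atTop (𝓝 0) := by
    have h0 := hεL.div haL hC1
    rw [zero_div] at h0
    exact h0
  have hpL : Tendsto (fun j => p.eval (ε j / (1 + ε j * N j))) atTop (𝓝 (p.eval 0)) :=
    (p.continuous.tendsto 0).comp hsL
  have hev1 : ∀ᶠ j in atTop, 1 + ε j * N j < 2 + c0 := haL.eventually_lt_const (by linarith)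
  have hev2 : ∀ᶠ j in atTop, ε j < 1 := hεL.eventually_lt_const (by norm_num)
  have hev3 : ∀ᶠ j in atTop, p.eval 0 / 2 < p.eval (ε j / (1 + ε j * N j)) :=
    hpL.eventually_const_lt (by linarith)
  set c : ℝ := p.eval 0 / 2 * (1 / (2 + c0)) ^ k * (α / 2) with hc
  have hcpos : 0 < c := by positivity
  have hlow : ∀ᶠ j in atTop, c * (1 / ε j) ^ (r - k) ≤
      ∫ x in T, κ x * (Q j x + β x).det.re := by
    filter_upwards [hav, hev1, hev2, hev3] with j hj h1 h2 h3
    have hεj := hL.eps j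
    have hNj := (hL.fam j).nn
    have hkQ : KEt T R (Q j) := (hL.tke j).ket
    obtain ⟨hVq, -⟩ := hNULL0 T R (Q j) hkQ κ hκ
    have hDQ := hDETI T R (Q j) hkQ
    have hdQ : ContinuousOn (fun x => (Q j x).det.re) T := hDQ.2.1.continuousOn
    have hQc : ContinuousOn (Q j) T := contMm fun i j' => (hkQ.smooth i j').continuousOn
    have hBc : ContinuousOn (fun x => XS (ε j) σ h (Q j) x) T :=
      contMm (contXS (ε j) (fun i a => (hD.sf.holo i a).continuousOn)
        (fun a b => (hD.sf.smooth a b).continuousOn)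
        fun i j' => (hDQ.2.2.1 i j').continuousOn)
    have hFB : ContinuousOn (fun x => F x (XS (ε j) σ h (Q j) x)) T := compFM hFc hBc
    -- volume
    have ha1 : 1 ≤ 1 + ε j * N j := by
      have : 0 ≤ ε j * N j := mul_nonneg hεj.le hNj
      linarith
    have hvol : vol T κ (Q j) = (1 + ε j * N j) ^ n *
        ((ε j / (1 + ε j * N j)) ^ k * p.eval (ε j / (1 + ε j * N j))) := by
      have h4 := (hSRLV T R H hD.ket κ hκ (ε j) (N j) (φ j) (H' j) (Q j) hεj (hL.fam j)
        (hL.tke j)).2 0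
      rw [add_zero] at h4
      rw [← hV, ← h4]
      unfold vol
      refine setIntegral_congr_fun hT.measurableSet fun x _ => ?_
      simp
    have hvol2 : ε j ^ k * (p.eval 0 / 2 * (1 / (2 + c0)) ^ k) ≤ vol T κ (Q j) := by
      rw [hvol]
      have e1 : (1 : ℝ) ≤ (1 + ε j * N j) ^ n := one_le_pow₀ ha1
      have e2 : ε j / (2 + c0) ≤ ε j / (1 + ε j * N j) :=
        div_le_div_of_nonneg_left hεj.le (by linarith) h1.le
      have e3 : (ε j / (2 + c0)) ^ k ≤ (ε j / (1 + ε j * N j)) ^ k :=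
        pow_le_pow_left₀ (by positivity) e2 k
      have e5 : ε j ^ k * (1 / (2 + c0)) ^ k ≤ (ε j / (1 + ε j * N j)) ^ k := by
        refine le_trans (le_of_eq ?_) e3
        rw [← mul_pow]
        congr 1
        ring
      have e6 : (ε j ^ k * (1 / (2 + c0)) ^ k) * (p.eval 0 / 2) ≤
          (ε j / (1 + ε j * N j)) ^ k * p.eval (ε j / (1 + ε j * N j)) :=
        mul_le_mul e5 h3.le (by linarith) (by positivity)
      have e7 : 0 ≤ (ε j / (1 + ε j * N j)) ^ k * p.eval (ε j / (1 + ε j * N j)) :=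
        le_trans (by positivity) e6
      calc ε j ^ k * (p.eval 0 / 2 * (1 / (2 + c0)) ^ k)
          = (ε j ^ k * (1 / (2 + c0)) ^ k) * (p.eval 0 / 2) := by ring
        _ ≤ _ := e6
        _ ≤ _ := le_mul_of_one_le_left e7 e1
    -- the average
    have hden : itg T κ (Q j) (fun _ => 1) = vol T κ (Q j) := by
      unfold itg vol
      simp
    have hnum : α / 2 * vol T κ (Q j) ≤
        ∫ x in T, κ x * (Q j x).det.re * F x (XS (ε j) σ h (Q j) x) := by
      have h5 := hj.1
      unfold avE at h5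
      rw [hden, le_div_iff₀ hVq] at h5
      have h6 : α - α / 2 = α / 2 := by ring
      rw [h6] at h5
      exact h5
    -- the pointwise inequality
    have hpt : ∀ x ∈ T, (1 / ε j) ^ r * (κ x * (Q j x).det.re * F x (XS (ε j) σ h (Q j) x)) ≤
        κ x * (Q j x + β x).det.re := by
      intro x hx
      have hεh : ((ε j : ℂ) • h x).PosDef := (hD.sf.posDef x hx).smul (by exact_mod_cast hεj)
      have hf : (σ x * P x) * P x = σ x * P x := by
        rw [Matrix.mul_assoc, hpar.proj x hx]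
      have hPh : P x * ((ε j : ℂ) • h x) = ((ε j : ℂ) • h x) * (P x)ᴴ := by
        rw [Matrix.mul_smul, Matrix.smul_mul, hpar.herm x hx]
      obtain ⟨d1, -, -, -, -, d6⟩ := hSDL r (Q j x) (σ x * P x) ((ε j : ℂ) • h x) (P x)
        (hkQ.posDef x hx) hεh (hpar.proj x hx) hPh (hpar.tr x hx) hf
      have hY : (ε j : ℂ) • h x * (σ x * P x)ᴴ * (Q j x)⁻¹ * (σ x * P x) =
          P x * XS (ε j) σ h (Q j) x * P x := by
        have h7 := ((hbet x hx).2.2.2.2.2 (ε j) (Q j)).1
        rw [← h7]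
        simp only [XS, Matrix.smul_mul]
      have hform : ((1 / ε j : ℝ) : ℂ) • ((σ x * P x) * ((ε j : ℂ) • h x) * (σ x * P x)ᴴ) =
          β x := by
        rw [Matrix.mul_smul, Matrix.smul_mul, smul_smul, hβdef]
        have : ((1 / ε j : ℝ) : ℂ) * (ε j : ℂ) = 1 := by
          rw [← Complex.ofReal_mul, one_div_mul_cancel hεj.ne', Complex.ofReal_one]
        rw [this, one_smul]
        rfl
      have h8 := d1 ((1 / ε j : ℝ) : ℂ)
      rw [hform, hY] at h8
      have h9 := (d6 (1 / ε j) (by positivity)).2.1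
      rw [hY] at h9
      have hdpos : 0 < (Q j x).det.re := (hDQ.1 x hx).2.1
      have hdim : (Q j x).det.im = 0 := (hDQ.1 x hx).1
      have h10 : (Q j x + β x).det.re = (Q j x).det.re *
          (1 + ((1 / ε j : ℝ) : ℂ) • (P x * XS (ε j) σ h (Q j) x * P x)).det.re := by
        rw [h8, Complex.mul_re, hdim]
        ring
      have h11 : F x (XS (ε j) σ h (Q j) x) ≤
          (P x * XS (ε j) σ h (Q j) x * P x + (1 - P x)).det.re := hFle x _
      have h12 : (1 / ε j) ^ r * F x (XS (ε j) σ h (Q j) x) ≤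
          (1 + ((1 / ε j : ℝ) : ℂ) • (P x * XS (ε j) σ h (Q j) x * P x)).det.re :=
        (mul_le_mul_of_nonneg_left h11 (by positivity)).trans h9
      rw [h10]
      have h13 := mul_le_mul_of_nonneg_left (mul_le_mul_of_nonneg_left h12 hdpos.le)
        (hκ.nonneg x)
      refine le_trans (le_of_eq ?_) h13
      ring
    have hi1 : IntegrableOn (fun x => κ x * (Q j x).det.re * F x (XS (ε j) σ h (Q j) x)) T := by
      have := intk hT hte (hdQ.mul hFB)
      refine this.congr_fun (fun x _ => ?_) hT.measurableSet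
      simp [mul_assoc]
    have hQβ : ContinuousOn (fun x => Q j x + β x) T := hQc.add hβc
    have hi2 : IntegrableOn (fun x => κ x * (Q j x + β x).det.re) T :=
      intk hT hte (contDetRe hQβ)
    have h13 := setIntegral_mono_on (hi1.const_mul ((1 / ε j) ^ r)) hi2 hT.measurableSet hpt
    rw [integral_const_mul] at h13
    refine le_trans ?_ h13
    have h14 : (1 / ε j) ^ r * (α / 2 * vol T κ (Q j)) ≤ (1 / ε j) ^ r *
        ∫ x in T, κ x * (Q j x).det.re * F x (XS (ε j) σ h (Q j) x) :=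
      mul_le_mul_of_nonneg_left hnum (by positivity)
    refine le_trans ?_ h14
    have h15 : (1 / ε j) ^ r * (α / 2 * (ε j ^ k * (p.eval 0 / 2 * (1 / (2 + c0)) ^ k))) ≤
        (1 / ε j) ^ r * (α / 2 * vol T κ (Q j)) := by
      apply mul_le_mul_of_nonneg_left _ (by positivity)
      exact mul_le_mul_of_nonneg_left hvol2 (by positivity)
    refine le_trans (le_of_eq ?_) h15
    have h16 : (1 / ε j) ^ r = (1 / ε j) ^ (r - k) * (1 / ε j) ^ k := by
      rw [← pow_add, Nat.sub_add_cancel hkr]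
    have h17 : (1 / ε j) ^ k * ε j ^ k = 1 := by
      rw [← mul_pow, one_div_mul_cancel hεj.ne', one_pow]
    rw [hc, h16]
    linear_combination (-((1 / ε j) ^ (r - k) * (p.eval 0 / 2 * (1 / (2 + c0)) ^ k * (α / 2)))) * h17
  -- the limit
  obtain ⟨hr1, hr2, hr3, hr4, hr5⟩ := hRHOI T R H hD.ket.et (ketHer hD.ket)
  have hrc : ContinuousOn (rho H) T := contMm fun i j => (hr1.smooth i j).continuousOn
  have hlim := volLim hT hte (hrc.const_smul (((1 + c0 : ℝ) : ℂ))) hHc hβc
    (fun j => (1 + ε j * N j) / (1 + c0)) ε haL1 hεL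
  have hzero : InvF T R (fun _ : Cn n => (0 : ℝ)) := ⟨contDiffOn_const, fun _ _ _ _ => rfl⟩
  have hI : ∀ j, ∫ x in T, κ x * (Q j x + β x).det.re = ∫ x in T,
      κ x * ((((1 + ε j * N j) / (1 + c0) : ℝ) : ℂ) • (((1 + c0 : ℝ) : ℂ) • rho H x) +
        (ε j : ℂ) • H x + β x).det.re := by
    intro j
    obtain ⟨g1, g2⟩ := (hSRLV T R H hD.ket κ hκ (ε j) (N j) (φ j) (H' j) (Q j) (hL.eps j)
      (hL.fam j) (hL.tke j)).1 1 β (fun _ => 0) hpar.chf hpar.inv hzero
    rw [g2] at g1
    have e1 : (((1 + ε j * N j) / (1 + c0) : ℝ) : ℂ) * ((1 + c0 : ℝ) : ℂ) =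
        ((1 + ε j * N j : ℝ) : ℂ) := by
      rw [← Complex.ofReal_mul, div_mul_cancel₀ _ hC1]
    simp_rw [smul_smul, e1]
    simpa using g1
  simp_rw [hI] at hlow
  refine lt_of_lt_of_le hcpos ?_
  refine ge_of_tendsto hlim ?_
  filter_upwards [hlow, hev2] with j hj hj2
  refine le_trans ?_ hj
  have hge1 : 1 ≤ 1 / ε j := by
    rw [le_div_iff₀ (hL.eps j)]
    linarith
  exact le_mul_of_one_le_right hcpos.le (one_le_pow₀ hge1)

end Pool.Agent.Helper38.FM.FVP
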